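import Pool.Agent.H66.XP.TG

/-!
Row NUC of the board xpm (MP_0f8dca_lc): estimates for the error terms, after
Pool.Agent.H91.IQ.NUA.
-/

set_option autoImplicit false

namespace Pool.Agent.H51.XP

open Pool.Agent.H78.XQ Pool.Agent.H66.XP

theorem nuc_exp (x : ℝ) (b : ℕ) (h : (b : ℝ) ≤ x) : Real.exp (-x) ≤ (1 / 2) ^ b := by
  have h2 : Real.exp (-1) ≤ 1 / 2 := by
    rw [Real.exp_neg]
    have h3 : (2 : ℝ) ≤ Real.exp 1 := by
      have := Real.add_one_le_exp (1 : ℝ)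
      linarith
    rw [one_div]
    exact inv_anti₀ (by norm_num) h3
  calc Real.exp (-x) ≤ Real.exp ((b : ℝ) * (-1)) := Real.exp_le_exp.2 (by linarith)
    _ = Real.exp (-1) ^ b := by rw [Real.exp_nat_mul]
    _ ≤ (1 / 2 : ℝ) ^ b := pow_le_pow_left₀ (Real.exp_pos _).le h2 _

theorem nuc_eighth (r : ℕ) : (1 / 8 : ℝ) ^ r = 8 * (1 / 2) ^ (3 * r + 3) := by
  rw [pow_add, pow_mul]
  norm_num
  ring

/-- a quotient of natural numbers which is small -/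
theorem nuc_frac (A m e : ℕ) (h : A * 2 ^ e ≤ 2 ^ m) : (A : ℝ) / 2 ^ m ≤ (1 / 2) ^ e := by
  rw [div_le_iff₀ (by positivity)]
  have h1 : (A : ℝ) * 2 ^ e ≤ 2 ^ m := by exact_mod_cast h
  calc (A : ℝ) = (1 / 2) ^ e * (A * 2 ^ e) := by
        rw [mul_comm (A : ℝ), ← mul_assoc, ← mul_pow]
        norm_num
    _ ≤ (1 / 2) ^ e * 2 ^ m := mul_le_mul_of_nonneg_left h1 (by positivity)

theorem nuc_pow (r : ℕ) (hr : 20 ≤ r) : 100 * (r + 1) ^ 3 ≤ 2 ^ r := by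
  induction r, hr using Nat.le_induction with
  | base => norm_num
  | succ r hr ih =>
    have h1 : (r + 1 + 1) ^ 3 ≤ 2 * (r + 1) ^ 3 := by
      have e1 : (r + 1 + 1) ^ 3 = (r + 1) ^ 3 + 3 * (r + 1) ^ 2 + 3 * (r + 1) + 1 := by ring
      have e2 : (r + 1) ^ 3 = (r + 1) * (r + 1) ^ 2 := by ring
      have e3 : (r + 1) ^ 2 = (r + 1) * (r + 1) := by ring
      rw [e1]
      nlinarith
    rw [pow_succ 2 r]
    omega

theorem pf_NUC : T_NUC := by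
  intro r l q R n hS
  obtain ⟨hr, hl, hlu, hq, hR, hn⟩ := hS
  have hr3 : 20 * r ^ 2 ≤ r ^ 3 := by
    rw [pow_succ r 2, mul_comm (r ^ 2) r]
    exact Nat.mul_le_mul_right _ hr
  have hr2 : 20 * r ≤ r ^ 2 := by
    rw [pow_two]
    exact Nat.mul_le_mul_right _ hr
  have hR1 : 1 ≤ R := by
    rw [hR]
    have h1 : 0 < (q + 3) ^ 2 := by positivity
    have h2 : 0 < 512 * (q + 3) ^ 2 * l := by
      apply Nat.mul_pos (Nat.mul_pos (by norm_num) h1)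
      omega
    omega
  have hnl : 2 * l + 3 * q ≤ n := by
    rw [hn]
    exact Nat.le_mul_of_pos_left _ hR1
  -- powers of two
  have h4r : (4 : ℕ) ^ r = 2 ^ (2 * r) := by
    rw [pow_mul]
    norm_num
  have h128 : (128 * 4 ^ r) ^ r = 2 ^ (7 * r + 2 * r ^ 2) := by
    rw [h4r, show 128 = 2 ^ 7 by norm_num, ← pow_add, ← pow_mul]
    congr 1
    ring
  have h128b : (128 * 4 ^ r) ^ (2 * r) = 2 ^ (14 * r + 4 * r ^ 2) := by
    rw [h4r, show 128 = 2 ^ 7 by norm_num, ← pow_add, ← pow_mul]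
    congr 1
    ring
  set k := l / 8 with hk
  have hk1 : 8 * k ≤ l := Nat.mul_div_le l 8
  have hk2 : l < 8 * (k + 1) := by omega
  have hR2 : R ≤ 2 ^ (26 + 3 * k) := by
    have hl2 : l ≤ 2 ^ (3 + k) := by
      have := Nat.lt_two_pow_self (n := k)
      rw [pow_add]
      omega
    have hq2 : q + 3 ≤ 2 ^ (7 + k) := by
      have : q + 3 ≤ 16 * l := by omega
      calc q + 3 ≤ 2 ^ 4 * l := this
        _ ≤ 2 ^ 4 * 2 ^ (3 + k) := Nat.mul_le_mul_left _ hl2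
        _ = 2 ^ (7 + k) := by rw [← pow_add]; congr 1; ring
    rw [hR]
    calc 512 * (q + 3) ^ 2 * l ≤ 2 ^ 9 * (2 ^ (7 + k)) ^ 2 * 2 ^ (3 + k) :=
          Nat.mul_le_mul (Nat.mul_le_mul_left _ (Nat.pow_le_pow_left hq2 2)) hl2
      _ = 2 ^ (26 + 3 * k) := by rw [← pow_mul, ← pow_add, ← pow_add]; congr 1; ring
  -- the large power
  set x : ℕ := 2 ^ r with hx
  have hx1 : 100 * (r + 1) ^ 3 ≤ x := nuc_pow r hr
  have hx0 : 1 ≤ x := Nat.one_le_two_pow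
  have h4x : 4 ^ r = x * x := by
    rw [h4r, hx, ← pow_add, two_mul]
  have hcube : (r + 1) ^ 3 = r ^ 3 + 3 * r ^ 2 + 3 * r + 1 := by ring
  have hx2 : (2 ^ x + 1) ^ r ≤ 2 ^ ((x + 1) * r) := by
    rw [pow_mul]
    apply Nat.pow_le_pow_left
    rw [pow_succ]
    have : 1 ≤ 2 ^ x := Nat.one_le_two_pow
    omega
  have hexp : 2 * l + (14 * r + 4 * r ^ 2) + 2 * (q + 1) + x + (x + 1) * r + (3 * r + 3) ≤
      4 ^ r := by
    rw [h4x]
    have h1 : (x + 1) * r = x * r + r := by ring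
    have h2 : x * (r + 6) ≤ x * x := by
      apply Nat.mul_le_mul_left
      omega
    have h3 : x * (r + 6) = x * r + 6 * x := by ring
    rw [h1]
    omega
  set S : ℝ := (1 / 2) ^ (3 * r + 3) with hSdef
  have t1 : (((2 ^ (2 * l) * (2 ^ (14 * r + 4 * r ^ 2) * (4003 * x ^ 2 * (x + 1) * (4 ^ r) ^ 2)) :
      ℕ) : ℝ)) / 2 ^ (q / 4) ≤ S := by
    refine nuc_frac _ _ _ ?_
    have h1 : x + 1 ≤ 2 ^ (r + 1) := by
      rw [pow_succ, ← hx]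
      omega
    calc 2 ^ (2 * l) * (2 ^ (14 * r + 4 * r ^ 2) * (4003 * x ^ 2 * (x + 1) * (4 ^ r) ^ 2)) *
          2 ^ (3 * r + 3)
        ≤ 2 ^ (2 * l) * (2 ^ (14 * r + 4 * r ^ 2) * (2 ^ 12 * (2 ^ r) ^ 2 * 2 ^ (r + 1) *
          (2 ^ (2 * r)) ^ 2)) * 2 ^ (3 * r + 3) := by
          rw [← h4r]
          gcongr
          norm_num
      _ = 2 ^ (2 * l + (14 * r + 4 * r ^ 2) + 12 + 2 * r + (r + 1) + 4 * r + (3 * r + 3)) := by
          rw [← pow_mul, ← pow_mul, ← pow_add, ← pow_add, ← pow_add, ← pow_add, ← pow_add,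
            ← pow_add]
          congr 1
          ring
      _ ≤ 2 ^ (q / 4) := by
          refine Nat.pow_le_pow_right (by norm_num) ?_
          omega
  have t2 : (((2 ^ (2 * l) * (2 ^ (14 * r + 4 * r ^ 2) * ((2 * 2 ^ q) ^ 2 * 2 ^ x *
      (2 ^ x + 1) ^ r)) : ℕ) : ℝ)) / 2 ^ 4 ^ r ≤ S := by
    refine nuc_frac _ _ _ ?_
    calc 2 ^ (2 * l) * (2 ^ (14 * r + 4 * r ^ 2) * ((2 * 2 ^ q) ^ 2 * 2 ^ x *
          (2 ^ x + 1) ^ r)) * 2 ^ (3 * r + 3)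
        ≤ 2 ^ (2 * l) * (2 ^ (14 * r + 4 * r ^ 2) * ((2 ^ 1 * 2 ^ q) ^ 2 * 2 ^ x *
          2 ^ ((x + 1) * r))) * 2 ^ (3 * r + 3) := by
          rw [pow_one]
          gcongr
      _ = 2 ^ (2 * l + (14 * r + 4 * r ^ 2) + 2 * (q + 1) + x + (x + 1) * r + (3 * r + 3)) := by
          rw [← pow_add 2 1 q, ← pow_mul, ← pow_add, ← pow_add, ← pow_add, ← pow_add, ← pow_add]
          congr 1
          ring
      _ ≤ 2 ^ 4 ^ r := Nat.pow_le_pow_right (by norm_num) hexp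
  have t3 : ((1 : ℕ) : ℝ) / 2 ^ l ≤ S := by
    refine nuc_frac _ _ _ ?_
    rw [one_mul]
    exact Nat.pow_le_pow_right (by norm_num) (by omega)
  have t4 : (((2 ^ x * (2 ^ x + 1) ^ r : ℕ)) : ℝ) / 2 ^ 4 ^ r ≤ S := by
    refine nuc_frac _ _ _ ?_
    calc 2 ^ x * (2 ^ x + 1) ^ r * 2 ^ (3 * r + 3)
        ≤ 2 ^ x * 2 ^ ((x + 1) * r) * 2 ^ (3 * r + 3) := by gcongr
      _ = 2 ^ (x + (x + 1) * r + (3 * r + 3)) := by
          rw [← pow_add, ← pow_add]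
      _ ≤ 2 ^ 4 ^ r := Nat.pow_le_pow_right (by norm_num) (by omega)
  have t5 : 4 * Real.exp (-(2 ^ n * (2 * (R : ℝ) / 2 ^ l) ^ 2 / 4)) ≤ S := by
    have h1 : Real.exp (-(2 ^ n * (2 * (R : ℝ) / 2 ^ l) ^ 2 / 4)) ≤ (1 / 2) ^ (3 * r + 5) := by
      apply nuc_exp
      have hR1' : (1 : ℝ) ≤ R := by exact_mod_cast hR1
      have h2 : 3 * r + 5 ≤ 2 ^ (n - 2 * l - 2) := by
        have h6 := Nat.lt_two_pow_self (n := n - 2 * l - 2)
        omega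
      have h3 : ((2 ^ (n - 2 * l - 2) : ℕ) : ℝ) ≤ 2 ^ n * (2 * (R : ℝ) / 2 ^ l) ^ 2 / 4 := by
        obtain ⟨m, hm⟩ : ∃ m, n = m + 2 * l + 2 := ⟨n - 2 * l - 2, by omega⟩
        rw [show n - 2 * l - 2 = m by omega, hm]
        have e2 : (2 : ℝ) ^ (m + 2 * l + 2) * (2 * (R : ℝ) / 2 ^ l) ^ 2 / 4 =
            4 * (2 ^ m * (R : ℝ) ^ 2) := by
          rw [pow_add, pow_add, pow_mul, div_pow]
          have : ((2 : ℝ) ^ 2) ^ l = (2 ^ l) ^ 2 := by rw [← pow_mul, ← pow_mul, mul_comm]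
          rw [this]
          field_simp
          norm_num
        rw [e2]
        push_cast
        have h4 : (1 : ℝ) ≤ (R : ℝ) ^ 2 := one_le_pow₀ hR1'
        have h5 : (0 : ℝ) < 2 ^ m := by positivity
        nlinarith
      exact le_trans (by exact_mod_cast h2) h3
    calc 4 * Real.exp (-(2 ^ n * (2 * (R : ℝ) / 2 ^ l) ^ 2 / 4)) ≤ 4 * (1 / 2) ^ (3 * r + 5) :=
          mul_le_mul_of_nonneg_left h1 (by norm_num)
      _ = S := by
          rw [hSdef, show 3 * r + 5 = (3 * r + 3) + 2 by ring, pow_add _ (3 * r + 3) 2]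
          norm_num
          ring
  have t6 : (((120 * 4 ^ r * R * 2 ^ (7 * r + 2 * r ^ 2) : ℕ)) : ℝ) / 2 ^ l ≤ S := by
    refine nuc_frac _ _ _ ?_
    calc 120 * 4 ^ r * R * 2 ^ (7 * r + 2 * r ^ 2) * 2 ^ (3 * r + 3)
        ≤ 2 ^ 7 * 2 ^ (2 * r) * 2 ^ (26 + 3 * k) * 2 ^ (7 * r + 2 * r ^ 2) * 2 ^ (3 * r + 3) := by
          rw [h4r]
          gcongr
          norm_num
      _ = 2 ^ (7 + 2 * r + (26 + 3 * k) + (7 * r + 2 * r ^ 2) + (3 * r + 3)) := by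
          rw [← pow_add, ← pow_add, ← pow_add, ← pow_add]
      _ ≤ 2 ^ l := Nat.pow_le_pow_right (by norm_num) (by omega)
  have t7 : 4 * ((4 ^ r : ℕ) : ℝ) * √(4 * (2 : ℝ) ^ (7 * r + 2 * r ^ 2) / 2 ^ n) ≤ S := by
    have h1 : (((4 * 2 ^ (7 * r + 2 * r ^ 2) : ℕ)) : ℝ) / 2 ^ n ≤ (1 / 2) ^ (10 * r + 10) := by
      refine nuc_frac _ _ _ ?_
      calc 4 * 2 ^ (7 * r + 2 * r ^ 2) * 2 ^ (10 * r + 10)
          = 2 ^ (2 + (7 * r + 2 * r ^ 2) + (10 * r + 10)) := by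
            rw [show (4 : ℕ) = 2 ^ 2 by norm_num, ← pow_add, ← pow_add]
        _ ≤ 2 ^ n := Nat.pow_le_pow_right (by norm_num) (by omega)
    have h2 : √(4 * (2 : ℝ) ^ (7 * r + 2 * r ^ 2) / 2 ^ n) ≤ (1 / 2) ^ (5 * r + 5) := by
      apply Real.sqrt_le_iff.2
      refine ⟨by positivity, ?_⟩
      rw [← pow_mul, show (5 * r + 5) * 2 = 10 * r + 10 by ring]
      refine le_trans (le_of_eq ?_) h1
      push_cast
      ring
    calc 4 * ((4 ^ r : ℕ) : ℝ) * √(4 * (2 : ℝ) ^ (7 * r + 2 * r ^ 2) / 2 ^ n)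
        ≤ 4 * ((4 ^ r : ℕ) : ℝ) * (1 / 2) ^ (5 * r + 5) :=
          mul_le_mul_of_nonneg_left h2 (by positivity)
      _ = S := by
          rw [h4r, hSdef, show 5 * r + 5 = (3 * r + 3) + (2 * r) + 2 by ring,
            pow_add _ (3 * r + 3 + 2 * r) 2, pow_add _ (3 * r + 3) (2 * r)]
          push_cast
          have h3 : (2 : ℝ) ^ (2 * r) * (1 / 2) ^ (2 * r) = 1 := by
            rw [← mul_pow]
            norm_num
          linear_combination (1 / 2 : ℝ) ^ (3 * r + 3) * h3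
  have t8 : (((64 * 2 ^ (7 * r + 2 * r ^ 2) : ℕ)) : ℝ) / 2 ^ n ≤ S := by
    refine nuc_frac _ _ _ ?_
    calc 64 * 2 ^ (7 * r + 2 * r ^ 2) * 2 ^ (3 * r + 3)
        = 2 ^ (6 + (7 * r + 2 * r ^ 2) + (3 * r + 3)) := by
          rw [show (64 : ℕ) = 2 ^ 6 by norm_num, ← pow_add, ← pow_add]
      _ ≤ 2 ^ n := Nat.pow_le_pow_right (by norm_num) (by omega)
  have c128 : (128 * ((4 ^ r : ℕ) : ℝ)) ^ r = 2 ^ (7 * r + 2 * r ^ 2) := by exact_mod_cast h128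
  have c128b : (128 * ((4 ^ r : ℕ) : ℝ)) ^ (2 * r) = 2 ^ (14 * r + 4 * r ^ 2) := by
    exact_mod_cast h128b
  rw [c128, c128b]
  refine ⟨?_, ?_, ?_⟩
  · have h1 : 240 * R * 2 ^ (7 * r + 2 * r ^ 2) ≤ 2 ^ l := by
      calc 240 * R * 2 ^ (7 * r + 2 * r ^ 2) ≤ 2 ^ 8 * 2 ^ (26 + 3 * k) *
            2 ^ (7 * r + 2 * r ^ 2) := by
            gcongr
            norm_num
        _ = 2 ^ (8 + (26 + 3 * k) + (7 * r + 2 * r ^ 2)) := by
            rw [← pow_add, ← pow_add]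
        _ ≤ 2 ^ l := Nat.pow_le_pow_right (by norm_num) (by omega)
    have h2 : (240 : ℝ) * R * 2 ^ (7 * r + 2 * r ^ 2) ≤ 2 ^ l := by exact_mod_cast h1
    have h3 : (120 : ℝ) * (2 * R / 2 ^ l) * 2 ^ (7 * r + 2 * r ^ 2) =
        (240 : ℝ) * R * 2 ^ (7 * r + 2 * r ^ 2) / 2 ^ l := by ring
    rw [h3, div_le_one (by positivity)]
    exact h2
  · obtain ⟨m, hm⟩ : ∃ m, n = 2 * r + m + 1 + l := ⟨n - l - 1 - 2 * r, by omega⟩
    have hR1' : (1 : ℝ) ≤ R := by exact_mod_cast hR1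
    have e1 : 2 * (R : ℝ) / 2 ^ l / 4 * 2 ^ n = R * (2 ^ (2 * r) * 2 ^ m) := by
      rw [hm, pow_add, pow_add, pow_add]
      field_simp
      norm_num
    rw [e1]
    have h4 : (1 : ℝ) ≤ 2 ^ m := one_le_pow₀ (by norm_num)
    have h5 : (0 : ℝ) < 2 ^ (2 * r) := by positivity
    calc (2 : ℝ) ^ (2 * r) = 1 * (2 ^ (2 * r) * 1) := by ring
      _ ≤ R * (2 ^ (2 * r) * 2 ^ m) :=
        mul_le_mul hR1' (mul_le_mul_of_nonneg_left h4 h5.le) (by positivity) (by positivity)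
  · rw [nuc_eighth]
    push_cast at t1 t2 t3 t4 t6 t7 t8 ⊢
    have e : ∀ a b c d e f g h : ℝ, a ≤ S → b ≤ S → c ≤ S → d ≤ S → e ≤ S → f ≤ S → g ≤ S →
        h ≤ S → a + b + c + d + e + f + g + h ≤ 8 * S := by
      intro a b c d e f g h ha hb hc hd he hf hg hh
      linarith
    refine le_trans (le_of_eq ?_) (e _ _ _ _ _ _ _ _ t1 t2 t3 t4 t5 t6 t7 t8)
    ring

end Pool.Agent.H51.XP
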